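import Mathlib
import Pool.Agent.Q182.SBDefs
import Pool.Agent.Q182.SBTwo

/-!
# The supremum of the topologies `τ_c` need not be the Mackey topology

For `b = (2 ^ n)` the topology `s_b` (the supremum of all `τ_c`, `c ∈ D_∞`, `λ_c = λ_b`) is a
locally quasi-convex group topology on the integers whose character group is `H_b`, the Prüfer
group `ℤ(2^∞)`, so it is compatible with `λ_b`; but it is not the Mackey topology for
`(ℤ, H_b)`: there is a locally quasi-convex group topology `σ` on the integers with character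
group `H_b` that is not coarser than `s_b`.
-/

namespace Pool.Agent.Results.MP_2b4c46_gt.NotMackey

open Q182

theorem result :
    ∃ b : ℕ → ℕ, IsDSeq b ∧ (∀ n, b n = 2 ^ n) ∧
      IsLQC (sTop b) ∧ chars (sTop b) = Hset b ∧ chars (lam b) = Hset b ∧
      ∃ σ : TopologicalSpace ℤ, IsLQC σ ∧ chars σ = Hset b ∧ ¬ sTop b ≤ σ :=
  ⟨SB.b2, SB.b2_dseq, fun _ => rfl, SB.lqc_sTop _, SB.chars_sTop_two,
    SB.chars_lam SB.b2_dseq, SB.exists_finer⟩

end Pool.Agent.Results.MP_2b4c46_gt.NotMackey
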